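import Pool.Agent.Helper97.Nag.Goals

set_option autoImplicit false

noncomputable section

namespace Pool.Agent.Helper55.Nag.SYM

open Module Pool.Agent.Helper97 Pool.Agent.Helper97.Nag
open Pool.Agent.Helper97.Tate (Van Fm)

lemma fm_eq (n : ℕ) : Fm ℂ (n : ℤ) = MvPolynomial.homogeneousSubmodule (Fin 3) ℂ n := by
  unfold Fm
  rw [if_pos (by positivity)]
  simp

lemma fin_sub (d : ℕ) (S : Submodule ℂ (MvPolynomial (Fin 3) ℂ)) :
    FiniteDimensional ℂ (Fm ℂ (d : ℤ) ⊓ S : Submodule ℂ (MvPolynomial (Fin 3) ℂ)) := by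
  rw [fm_eq]
  have h5 : FiniteDimensional ℂ (MvPolynomial.homogeneousSubmodule (Fin 3) ℂ d) :=
    Module.Finite.iff_fg.2 (MvPolynomial.homogeneousSubmodule_fg (σ := Fin 3) (R := ℂ) d)
  exact Submodule.finiteDimensional_of_le (inf_le_left)

lemma prod_van (hV : Tate.S_VAA) {ι : Type} (s : Finset ι) (P : Fin 3 → ℂ) (a : ι → ℕ)
    (f : ι → MvPolynomial (Fin 3) ℂ) (h : ∀ c ∈ s, f c ∈ Van P (a c)) :
    ∏ c ∈ s, f c ∈ Van P (∑ c ∈ s, a c) := by
  classical
  induction s using Finset.induction_on with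
  | empty => simpa using (hV ℂ P).2.2.2 1
  | insert c s hc ih =>
    rw [Finset.prod_insert hc, Finset.sum_insert hc]
    exact (hV ℂ P).1 _ _ _ _ (h c (Finset.mem_insert_self _ _))
      (ih fun c' hc' => h c' (Finset.mem_insert_of_mem hc'))

theorem t (hT : Tate.S_TRK) (hV : Tate.S_VAA) : S_SYM := by
  intro n hn U d m hdm
  by_cases hex : ∃ P : Fin n → Fin 3 → ℂ,
      (Fm ℂ d ⊓ ⨅ i, Van (P i) (m i) : Submodule ℂ (MvPolynomial (Fin 3) ℂ)) = ⊥
  · obtain ⟨P, hP⟩ := hex
    obtain ⟨G, hG0, hG⟩ := hT ℂ n d 0 m P (by rw [hP]; simp)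
    refine ⟨G, hG0, fun Q hQ => ?_⟩
    have h1 := hG Q hQ
    have h2 := fin_sub d (⨅ i, Van (Q i) (m i))
    exact Submodule.finrank_eq_zero.mp (by omega)
  · exfalso
    push Not at hex
    haveI : NeZero n := ⟨by omega⟩
    set μ := ∑ i, m i with hμ
    have hμ1 : 1 ≤ μ := by
      rcases Nat.eq_zero_or_pos μ with h | h
      · rw [h] at hdm; simp at hdm
      · exact h
    have h1 : (n * d) ^ 2 < n * μ ^ 2 := by
      have : (n * d) ^ 2 = n * (n * d ^ 2) := by ring
      rw [this]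
      exact (Nat.mul_lt_mul_left (by omega)).2 hdm
    obtain ⟨G, hG0, hG⟩ := U (n * d) μ hμ1 h1
    have h2 : ∃ x : Fin n × Fin 3 → ℂ, MvPolynomial.eval x G ≠ 0 := by
      by_contra hcon
      push Not at hcon
      exact hG0 (MvPolynomial.funext fun x => by rw [hcon x, map_zero])
    obtain ⟨x, hx⟩ := h2
    have h3 := hG (fun i j => x (i, j)) (by simpa using hx)
    set Q : Fin n → Fin 3 → ℂ := fun i j => x (i, j) with hQ
    have h4 : ∀ c : Fin n, ∃ f : MvPolynomial (Fin 3) ℂ, f ≠ 0 ∧ f ∈ Fm ℂ (d : ℤ) ∧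
        ∀ i, f ∈ Van (Q (i + c)) (m i) := by
      intro c
      have h5 := hex (fun i => Q (i + c))
      obtain ⟨f, hf, hf0⟩ := Submodule.exists_mem_ne_zero_of_ne_bot h5
      rw [Submodule.mem_inf, Submodule.mem_iInf] at hf
      exact ⟨f, hf0, hf.1, hf.2⟩
    choose f hf0 hfd hfv using h4
    have h6 : ∏ c, f c ∈ (Fm ℂ ((n * d : ℕ) : ℤ) ⊓ ⨅ i, Van (Q i) μ :
        Submodule ℂ (MvPolynomial (Fin 3) ℂ)) := by
      rw [Submodule.mem_inf, Submodule.mem_iInf]
      constructor
      · rw [fm_eq, MvPolynomial.mem_homogeneousSubmodule]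
        have h7 : ∀ c ∈ (Finset.univ : Finset (Fin n)), (f c).IsHomogeneous d := by
          intro c _
          have := hfd c
          rwa [fm_eq, MvPolynomial.mem_homogeneousSubmodule] at this
        have h8 := MvPolynomial.IsHomogeneous.prod (Finset.univ : Finset (Fin n)) f (fun _ => d) h7
        simpa using h8
      · intro i
        have h9 := prod_van hV (Finset.univ : Finset (Fin n)) (Q i) (fun c => m (i - c)) f (by
          intro c _
          have := hfv c (i - c)
          rwa [sub_add_cancel] at this)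
        have h10 : ∑ c, m (i - c) = μ := by
          rw [hμ]
          exact Fintype.sum_equiv (Equiv.subLeft i) _ _ (fun c => rfl)
        rwa [h10] at h9
    rw [h3, Submodule.mem_bot, Finset.prod_eq_zero_iff] at h6
    obtain ⟨c, _, hc⟩ := h6
    exact hf0 c hc

end Pool.Agent.Helper55.Nag.SYM
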